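import Pool.Agent.KS6_90.UF.Gen

/-!
# Sup-norm estimates for `∂̄` on biholomorphic images of the ball: failure at one boundary point

For every `n = m + 2 ≥ 2` we construct a biholomorphic image `Ω = F(𝔹_n)` of the ball on which
`∂̄` has no uniform estimates, although the closure of `Ω` is homeomorphic to the closed ball and,
off ONE boundary point `F(e₀)`, the closure of `Ω` is the image of the closed ball under a
holomorphic automorphism `F` of the half space `H = {Re z₀ < 1}` (which contains the closed ball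
minus `e₀`).  The failure is strong and local: one single `∂̄`-closed `(0,1)`-form `f`, smooth on
`H` and continuous up to the boundary of `Ω`, has no bounded solution on `Ω ∩ U` for ANY
neighbourhood `U` of the point `F(e₀)`.  Moreover the failure is generic (residual sets) in an
explicit family of such maps and forms.

The notions `unitBall`, `Biholomorphic`, `dbar`, `IsTest`, `DbarClosed`, `SolvesDbar`,
`UniformEstimates` are those of the library file `R_seed8/Helper303/DbDefs.lean`.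
-/

open MeasureTheory Set Filter
open scoped ContDiff ComplexConjugate BoundedContinuousFunction Topology

namespace Pool.Agent.Results.MP_ae2532_an.OneBadPoint

open Pool.Agent.Helper303.Db (unitBall Biholomorphic dbar IsTest DbarClosed SolvesDbar
  UniformEstimates)

/-- The pole `e₀ = (1, 0, …, 0)`. -/
def pole (m : ℕ) : Fin (m + 2) → ℂ := Pi.single 0 1

/-- The closed Euclidean unit ball. -/
def closedUnitBall (n : ℕ) : Set (Fin n → ℂ) := {z | ∑ j, ‖z j‖ ^ 2 ≤ 1}

/-- The Euclidean unit sphere. -/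
def unitSphere (n : ℕ) : Set (Fin n → ℂ) := {z | ∑ j, ‖z j‖ ^ 2 = 1}

/-- The half space `H = {p ∈ ℂ^{m+2} : Re p₀ < 1}`. -/
def halfSpace (m : ℕ) : Set (Fin (m + 2) → ℂ) := {p | (p 0).re < 1}

/-- `∂̄u = f` has no essentially bounded (distributional) solution `u` on `W`. -/
def NoBoundedSolution {n : ℕ} (W : Set (Fin n → ℂ)) (f : (Fin n → ℂ) → (Fin n → ℂ)) : Prop :=
  ¬ ∃ (u : (Fin n → ℂ) → ℂ) (M : ℝ), AEStronglyMeasurable u (volume.restrict W) ∧
    (∀ᵐ x ∂(volume.restrict W), ‖u x‖ ≤ M) ∧ SolvesDbar W u f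

/-! ### The explicit family -/

/-- The closed half plane `{z ∈ ℂ : Re z ≤ 1}` as a type. -/
abbrev ClosedHalfPlane : Type := {z : ℂ // z.re ≤ 1}

open Classical in
/-- The function on `ℂ` equal to `b` on the closed half plane and to `0` outside. -/
noncomputable def ext0 (b : ClosedHalfPlane →ᵇ ℂ) (z : ℂ) : ℂ :=
  if h : z.re ≤ 1 then b ⟨z, h⟩ else 0

/-- The multiplier `λ_g(z) = g(z) / (1 - Re z)`. -/
noncomputable def mult (g : ClosedHalfPlane →ᵇ ℂ) (z : ℂ) : ℂ :=
  ext0 g z * ((1 - z.re : ℝ) : ℂ)⁻¹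

/-- `𝒜`: bounded continuous functions on the closed half plane `Re z ≤ 1` which are holomorphic
on `Re z < 1`, with the sup norm. -/
def SpaceA : Set (ClosedHalfPlane →ᵇ ℂ) := {b | DifferentiableOn ℂ (ext0 b) {z | z.re < 1}}

/-- `ℒ`: bounded continuous functions `g` on the closed half plane with `g(1) = 0` such that
`λ_g = g / (1 - Re z)` is holomorphic on `Re z < 1`, with the sup norm. -/
def SpaceL : Set (ClosedHalfPlane →ᵇ ℂ) :=
  {g | DifferentiableOn ℂ (mult g) {z | z.re < 1} ∧ ext0 g 1 = 0}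

/-- The map `F_b(p) = (p₀, b(p₀) + (1 - p₀) p₁, p₂, …, p_{m+1})`. -/
noncomputable def mapF (m : ℕ) (b : ClosedHalfPlane →ᵇ ℂ) (p : Fin (m + 2) → ℂ) :
    Fin (m + 2) → ℂ :=
  Function.update p 1 (ext0 b (p 0) + (1 - p 0) * p 1)

/-- The domain `Ω_b = F_b(𝔹)`. -/
noncomputable def domain (m : ℕ) (b : ClosedHalfPlane →ᵇ ℂ) : Set (Fin (m + 2) → ℂ) :=
  mapF m b '' unitBall (m + 2)

/-- The form `f_{b,g} = -λ_g(z) conj(w - b(z)) dz̄ + λ_g(z) (2 - z - z̄) dw̄`, `z = p₀`, `w = p₁`. -/
noncomputable def formF (m : ℕ) (b g : ClosedHalfPlane →ᵇ ℂ) (p : Fin (m + 2) → ℂ)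
    (j : Fin (m + 2)) : ℂ :=
  if j = 0 then -mult g (p 0) * conj (p 1 - ext0 b (p 0))
  else if j = 1 then mult g (p 0) * (2 - p 0 - conj (p 0)) else 0

/-- **Main theorem.** -/
theorem result (m : ℕ) :
    -- (0) the closed ball minus the pole lies in the half space `H`
    closedUnitBall (m + 2) \ {pole m} ⊆ halfSpace m ∧
    -- (1) every map `F_b`, `b ∈ 𝒜`, is a holomorphic automorphism of `H`, continuous and
    -- injective on the closed ball; the domain `Ω_b` is a bounded domain biholomorphic to the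
    -- ball, with closure and boundary the images of the closed ball and of the sphere;
    -- every form `f_{b,g}`, `g ∈ ℒ`, is smooth and `∂̄`-closed on `H` and continuous on the
    -- closure of `Ω_b`
    (∀ b ∈ SpaceA,
      (∃ G : (Fin (m + 2) → ℂ) → (Fin (m + 2) → ℂ),
        DifferentiableOn ℂ (mapF m b) (halfSpace m) ∧ DifferentiableOn ℂ G (halfSpace m) ∧
        MapsTo (mapF m b) (halfSpace m) (halfSpace m) ∧ MapsTo G (halfSpace m) (halfSpace m) ∧
        (∀ p ∈ halfSpace m, G (mapF m b p) = p) ∧ (∀ p ∈ halfSpace m, mapF m b (G p) = p)) ∧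
      ContinuousOn (mapF m b) (closedUnitBall (m + 2)) ∧
      InjOn (mapF m b) (closedUnitBall (m + 2)) ∧
      IsOpen (domain m b) ∧ IsConnected (domain m b) ∧ Bornology.IsBounded (domain m b) ∧
      Biholomorphic (unitBall (m + 2)) (domain m b) ∧
      closure (domain m b) = mapF m b '' closedUnitBall (m + 2) ∧
      frontier (domain m b) = mapF m b '' unitSphere (m + 2) ∧
      ∀ g ∈ SpaceL,
        ContDiffOn ℝ ∞ (formF m b g) (halfSpace m) ∧
        (∀ x ∈ halfSpace m, ∀ j k : Fin (m + 2),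
          dbar k (fun p => formF m b g p j) x = dbar j (fun p => formF m b g p k) x) ∧
        ContinuousOn (formF m b g) (closure (domain m b)) ∧
        DbarClosed (domain m b) (formF m b g)) ∧
    -- (2) for some `b ∈ 𝒜`, `g ∈ ℒ`, uniform estimates fail on `Ω_b`, and the closed form
    -- `f_{b,g}` has no bounded solution on `Ω_b ∩ U`, for every neighbourhood `U` of the
    -- boundary point `F_b(e₀)`
    (∃ b ∈ SpaceA, ∃ g ∈ SpaceL, ¬ UniformEstimates (domain m b) ∧
      ∀ U : Set (Fin (m + 2) → ℂ), IsOpen U → mapF m b (pole m) ∈ U →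
        NoBoundedSolution (domain m b ∩ U) (formF m b g)) ∧
    -- (3) and this is the generic behaviour: `𝒜` and `ℒ` are closed in the Banach space of
    -- bounded continuous functions (so they are complete), and (2) holds for all `b` in a
    -- residual subset of `𝒜` and all `g` in a residual subset of `ℒ`
    IsClosed SpaceA ∧ IsClosed SpaceL ∧
    (∀ᶠ b in residual SpaceA, ¬ UniformEstimates (domain m b.1) ∧
      ∀ᶠ g in residual SpaceL,
        ∀ U : Set (Fin (m + 2) → ℂ), IsOpen U → mapF m b.1 (pole m) ∈ U →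
          NoBoundedSolution (domain m b.1 ∩ U) (formF m b.1 g.1)) := by
  have hdom : ∀ b : ClosedHalfPlane →ᵇ ℂ, domain m b = Helper303.Db.Om m (KS6_90.UF.xt b) :=
    fun b => KS6_90.UF.image_Fm
  have hno : ∀ b g : ClosedHalfPlane →ᵇ ℂ,
      ¬ KS6_90.UF.LocSol m (KS6_90.UF.xt b) (KS6_90.UF.lg g) →
      ∀ U : Set (Fin (m + 2) → ℂ), IsOpen U → mapF m b (pole m) ∈ U →
        NoBoundedSolution (domain m b ∩ U) (formF m b g) := by
    intro b g h U hU hpt hsol
    rw [hdom] at hsol
    exact h ⟨U, hU, hpt, hsol⟩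
  refine ⟨KS6_90.UF.cb_diff_pole_sub, ?_, ?_, KS6_90.UF.isClosed_XX, KS6_90.UF.isClosed_LL, ?_⟩
  · intro b hb
    have hb1 : DifferentiableOn ℂ (KS6_90.UF.xt b) KS6_90.UF.HP := hb
    have hbc := KS6_90.UF.continuousOn_xt b
    have hbb : DifferentiableOn ℂ (KS6_90.UF.xt b) (Metric.ball 0 1) :=
      hb1.mono KS6_90.UF.ball_subset_HP
    have hO := Helper303.Db.isOpen_Om (m := m) hbb
    refine ⟨⟨Helper303.Db.Gm m (KS6_90.UF.xt b), KS6_90.UF.diffOn_Fm hb1, KS6_90.UF.diffOn_Gm hb1,
      KS6_90.UF.mapsTo_Fm, KS6_90.UF.mapsTo_Gm, fun p hp => KS6_90.UF.Gm_Fm' hp,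
      fun p hp => KS6_90.UF.Fm_Gm' hp⟩, KS6_90.UF.contOn_Fm hbc, KS6_90.UF.injOn_Fm, ?_⟩
    rw [hdom]
    refine ⟨hO, Helper303.Db.isConnected_Om hbb,
      Helper303.Db.isBounded_Om (fun z _ => KS6_90.UF.norm_xt_le b z), Helper303.Db.biholo hbb,
      KS6_90.UF.closure_Om hbc, KS6_90.UF.frontier_Om hbc hb1, ?_⟩
    intro g hg
    have hg1 : DifferentiableOn ℂ (KS6_90.UF.lg g) KS6_90.UF.HP := hg.1
    refine ⟨contDiffOn_pi.2 fun j => KS6_90.UF.contDiffOn_fl hb1 hg1 j,
      fun x hx j k => KS6_90.UF.fl_closed_class hb1 hg1 hx j k, KS6_90.UF.contOn_fl hb hg,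
      KS6_90.UF.fl_closed hb1 hg1 hO fun p hp =>
        KS6_90.UF.ball_subset_HP (mem_ball_zero_iff.2 (Helper303.Db.lt_of_mem_Om hp))⟩
  · obtain ⟨b, hb, g, hg, h⟩ := KS6_90.UF.exists_bl m
    refine ⟨b, hb, g, hg, ?_, hno b g h⟩
    rw [hdom]
    exact KS6_90.UF.not_UE hb hg h
  · have h := KS6_90.UF.generic
    have h2 : ∀ᶠ b in residual KS6_90.UF.XX, ¬ UniformEstimates (domain m b.1) ∧
        ∀ᶠ g in residual KS6_90.UF.LL,
          ∀ U : Set (Fin (m + 2) → ℂ), IsOpen U → mapF m b.1 (pole m) ∈ U →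
            NoBoundedSolution (domain m b.1 ∩ U) (formF m b.1 g.1) := by
      filter_upwards [h] with b hb
      constructor
      · obtain ⟨g, hg⟩ := (dense_of_mem_residual hb).nonempty
        rw [hdom]
        exact KS6_90.UF.not_UE b.2 g.2 ((show ∀ m, _ from hg) m)
      · filter_upwards [hb] with g hg
        exact hno b.1 g.1 (hg m)
    exact h2

end Pool.Agent.Results.MP_ae2532_an.OneBadPoint
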